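import Pool.Agent.Q196.SR.MainA

/-!
# Convex functions on slice discs

Let `D` be a slice disc in the unit ball of four-space (properly and transversally embedded, smooth
up to the boundary) and let `h` be any smooth convex function on the closed ball whose restriction
to `D` is a Morse function without critical points on the boundary and with at most `m` local
maxima in the interior of `D`. Then there is a diffeomorphism `F` from the closed ball minus an
interior point `q` outside of `D` to the closed ball minus the centre, equal to the identity on the
boundary sphere, such that on the slice disc `F(D)`, which has the same boundary, the distance from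
the centre is a Morse function with at most `m` local maxima in the interior. For `m = 0` this is
the standard description of ribbon discs. Examples of `h`: the distance squared from an arbitrary
point, linear functions, and all sums and smooth convex functions of them.
-/

set_option autoImplicit false

namespace Pool.Agent.Results.MP_752436_gt.ConvexFunctions

open Pool.Agent.Y503.RB Pool.Agent.Q196.SR
open Metric
open scoped ContDiff

theorem result (φ : ℂ → E4) (hφ : SliceDisc φ) (m : ℕ) (h : E4 → ℝ) (V : Set E4)
    (hV : IsOpen V) (hVs : closedBall (0 : E4) 1 ⊆ V) (hs : ContDiffOn ℝ ∞ h V)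
    (hc : ConvexOn ℝ (closedBall (0 : E4) 1) h)
    (hmorse : ∀ z ∈ ball (0 : ℂ) 1, fderiv ℝ (fun w => h (φ w)) z = 0 → ∀ u : ℂ,
      (∀ v : ℂ, fderiv ℝ (fderiv ℝ (fun w => h (φ w))) z u v = 0) → u = 0)
    (hbd : ∀ z ∈ sphere (0 : ℂ) 1, fderiv ℝ (fun w => h (φ w)) z ≠ 0)
    (hmax : {z : ℂ | z ∈ ball (0 : ℂ) 1 ∧ IsLocalMax (fun w => h (φ w)) z}.encard ≤ m) :
    ∃ (q : E4) (F : E4 → E4), BallDiffeo q F ∧ (∀ z ∈ closedBall (0 : ℂ) 1, φ z ≠ q) ∧
      SliceDisc (fun w => F (φ w)) ∧ MorseDisc (fun w => F (φ w)) m :=
  convex_criterion hφ hV hVs hs hc hmorse hbd hmax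

end Pool.Agent.Results.MP_752436_gt.ConvexFunctions
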