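import Pool.Agent.Q196.HS.DiscT

/-!
# Slice discs whose projection to three-space has small total positive curvature

Let `D` be a slice disc in the closed upper half-space of four-space (a smooth disc, properly and
transversally embedded in `{x : x 3 ≥ 0}`, whose boundary is a knot in three-space), whose vertical
projection to three-space is an immersion except at countably many points (generic discs have only
finitely many vertical tangencies). If the total positive Gauss curvature of the projected disc in
three-space, the integral of the positive part of the Gauss curvature with respect to the area, is
less than `4 π (m + 1)`, then the heights can be changed, by a diffeomorphism `G` of the half-space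
which moves all points vertically and is the identity on the boundary hyperplane, so that the height
is a Morse function on the slice disc `G(D)`, which has the same projection and the same boundary,
with at most `m` local minima in the interior.

So a knot is ribbon as soon as it bounds an immersed disc in three-space (with double curves and
triple points of any kind) of total positive curvature less than `4 π` which lifts to an embedded
disc in the half-space.
-/

set_option autoImplicit false

namespace Pool.Agent.Results.MP_752436_gt.ProjectedCurvature

open Pool.Agent.Y503.RB Pool.Agent.Q196.HS
open MeasureTheory Metric
open scoped ContDiff

theorem result (φ : ℂ → E4) (hφ : HDisc φ) (m : ℕ)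
    (hc : {z : ℂ | z ∈ closedBall (0 : ℂ) 1 ∧
      ¬ Function.Injective (fderiv ℝ (fun w => pr3 (φ w)) z)}.Countable)
    (hT : ∫⁻ z in ball (0 : ℂ) 1, posCurvAt (fun w => pr3 (φ w)) z <
      ENNReal.ofReal (4 * Real.pi * (m + 1))) :
    ∃ G : E4 → E4, HalfDiffeo G ∧ HDisc (fun w => G (φ w)) ∧ MorseHDisc (fun w => G (φ w)) m :=
  curv_disc hφ m hc hT

end Pool.Agent.Results.MP_752436_gt.ProjectedCurvature
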