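import Pool.Agent.Q196.HS.DiscP

/-!
# Slice discs in the half-space and functions on three-space

Let `D` be a slice disc in the closed upper half-space of four-space (a smooth disc, properly and
transversally embedded in `{x : x 3 ≥ 0}`, whose boundary is a knot in three-space) and let `H` be
any smooth function on three-space whose restriction to the vertical projection of `D` (a disc with
singularities in three-space) is a Morse function without critical points on the boundary and with
at most `m` local maxima in the interior. Then the heights can be changed, by a diffeomorphism `G` of
the half-space which moves all points vertically and is the identity on the boundary hyperplane, so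
that the height is a Morse function on the slice disc `G(D)`, which has the same projection and the
same boundary, with at most `m` local minima in the interior.

For `m = 0` this is the standard description of ribbon discs in the half-space model (in the unit
ball the distance from the centre decreases with the height; no interior local maxima of the
distance from the centre). So a knot is ribbon as soon as it bounds a disc with singularities in
three-space which lifts to a slice disc in the half-space and on which some function of three
variables has no interior local maxima.
-/

set_option autoImplicit false

namespace Pool.Agent.Results.MP_752436_gt.ProjectedFunctions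

open Pool.Agent.Y503.RB Pool.Agent.Q196.HS
open Metric
open scoped ContDiff

theorem result (φ : ℂ → E4) (hφ : HDisc φ) (m : ℕ) (H : E3 → ℝ) (hH : ContDiff ℝ ∞ H)
    (hmorse : ∀ z ∈ ball (0 : ℂ) 1, fderiv ℝ (fun w => H (pr3 (φ w))) z = 0 → ∀ u : ℂ,
      (∀ v : ℂ, fderiv ℝ (fderiv ℝ (fun w => H (pr3 (φ w)))) z u v = 0) → u = 0)
    (hbd : ∀ z ∈ sphere (0 : ℂ) 1, fderiv ℝ (fun w => H (pr3 (φ w))) z ≠ 0)
    (hmax : {z : ℂ | z ∈ ball (0 : ℂ) 1 ∧ IsLocalMax (fun w => H (pr3 (φ w))) z}.encard ≤ m) :
    ∃ G : E4 → E4, HalfDiffeo G ∧ HDisc (fun w => G (φ w)) ∧ MorseHDisc (fun w => G (φ w)) m :=
  proj_disc hφ hH hmorse hbd hmax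

end Pool.Agent.Results.MP_752436_gt.ProjectedFunctions
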