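import Pool.Agent.Q196.SR.MainB

/-!
# Total curvature and Willmore energy of slice discs

Let `D` be a slice disc in the unit ball of four-space. Its total curvature here is the integral of
`det II_n` over all unit normal vectors `n` of `D` for which the second fundamental form `II_n` is
negative definite (`2 π²` is the value for a convex closed surface in a 3-space). If it is less than
`2 π² (m + 1)`, in particular if the Willmore energy of `D` (integral of the squared length of the
mean curvature vector) is less than `4 π (m + 1)`, then a diffeomorphism from the closed ball minus
an interior point outside of `D` to the closed ball minus its centre, equal to the identity on the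
boundary sphere, turns `D` into a slice disc with the same boundary on which the distance from the
centre is a Morse function with at most `m` local maxima in the interior.

So every knot which bounds a slice disc of Willmore energy less than `4 π` (for instance a minimal
disc) is a ribbon knot.
-/

set_option autoImplicit false

namespace Pool.Agent.Results.MP_752436_gt.WillmoreEnergy

open Pool.Agent.Y503.RB Pool.Agent.Q196.SR
open MeasureTheory Metric

theorem result (φ : ℂ → E4) (hφ : SliceDisc φ) (m : ℕ)
    (h : ∫⁻ z in ball (0 : ℂ) 1, ncurvAt φ z < ENNReal.ofReal (2 * Real.pi ^ 2 * (m + 1)) ∨
      willmore φ < ENNReal.ofReal (4 * Real.pi * (m + 1))) :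
    ∃ (q : E4) (F : E4 → E4), BallDiffeo q F ∧ (∀ z ∈ closedBall (0 : ℂ) 1, φ z ≠ q) ∧
      SliceDisc (fun w => F (φ w)) ∧ MorseDisc (fun w => F (φ w)) m :=
  curvature_criterion hφ m (h.elim id (willmore_criterion hφ m))

end Pool.Agent.Results.MP_752436_gt.WillmoreEnergy
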